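import Pool.Agent.R841.TD.Dim

set_option autoImplicit false

/-!
MP_770f2c_al, Q1: all linear maps `X` with `X V*_i ⊆ V*_0 + ⋯ + V*_{i-1}` and
`X V_i ⊆ V_{i-1} + V_i + V_{i+1}` (`0 ≤ i ≤ d`), for an arbitrary tridiagonal pair `A, A* = B`.

Definitions are in `Pool.Agent.R841.TD.Defs` (`str`, `TT`, `AA`), `Pool.Agent.R841.TD.Dec` (`II`),
`Pool.Agent.R841.TD.Fin` (all others) and
`Pool.Agent.Helper9.TDBasic` (`TDOrdering`).
-/

open Module Polynomial Pool.Agent.R841.TD
open Pool.Agent.Helper9.TD (TDOrdering)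

namespace Pool.Agent.Results.MP_770f2c_al.LoweringMaps

/-- Let `A, B` be a tridiagonal pair, `V_i`, `V*_i` (`0 ≤ i ≤ d`) the eigenspaces of `A`, `B` for
`a i`, `b i` in a standard order, `L_j = (V*_0 + ⋯ + V*_j) ∩ (V_j + ⋯ + V_{d-j})` (`Low`), and
`τ_{j,s} = ∏_{h<s} (A - a_{j+h})` (`tau`).

1. (`StringDecomp`) Every `v` is uniquely `∑ τ_{j,s} q_{j,s}` (`2j + s ≤ d`, `q_{j,s} ∈ L_j`).
2. There is a `β` with `a_i - a_{i+3} = (β+1) (a_{i+1} - a_{i+2})` for `i + 3 ≤ d`.
3. For each such `β`: put `T_0 = 0, T_1 = 1, T_{n+2} = β T_{n+1} - T_n + 1`. For all linear maps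
   `f_j : L_j → L_j`, `g_j : L_j → L_{j+1}`, `h_j : L_{j+1} → L_j` there is exactly one `X` with
   `X τ_{j,s} q = (∑_{t<s} (a_{j+t} - a_{d-j-t})) τ_{j,s-1} f_j q + T_{s-1} τ_{j+1,s-2} g_j q
     + T_{d+1-2j-s} τ_{j-1,s} h_{j-1} q`
   for `2j + s ≤ d` and `q ∈ L_j` (last term only if `j ≥ 1`), and it satisfies both conditions of
   the problem (`Produces`); every `X` that satisfies the two conditions arises in this way
   (`Exhausts`); and `f_j` for `2j < d`, `g_j` and `h_j` for `2j + 2 ≤ d` are determined by `X`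
   (`Faithful`; the other `f_j, g_j, h_j` do not occur or are `0`).
4. (`DimLowering`) The dimension of the space of all `X` is
   `∑_{2j<d} n_j² + 2 ∑_{2j+2≤d} n_j n_{j+1}`, `n_j = dim L_j`.
5. (`DimEigenspaces`) `dim V_i = ∑_{j ≤ min(i, d-i)} n_j` (so `n_j = dim V_j - dim V_{j-1}` for
   `2j ≤ d`, and the dimension in 4 is explicit in the dimensions of the eigenspaces). -/
theorem result {K : Type*} [Field K] {V : Type*} [AddCommGroup V] [Module K V]
    [FiniteDimensional K V] {A B : Module.End K V} {d : ℕ} {a b : ℕ → K}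
    (hA : TDOrdering A B d a) (hB : TDOrdering B A d b) (irred : Irred A B) :
    StringDecomp A B d a b ∧
    (∃ β : K, Recur d a β) ∧
    (∀ β : K, Recur d a β →
      Produces A B d a b β ∧ Exhausts A B d a b β ∧ Faithful A B d a b β) ∧
    DimLowering A B d a b ∧ DimEigenspaces A B d a b := by
  obtain ⟨h1, h2, h3⟩ := main hA hB irred
  exact ⟨h1, h2, h3, main_dim hA hB irred⟩

end Pool.Agent.Results.MP_770f2c_al.LoweringMaps
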